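import Pool.Agent.Work.MP_84e666_co.Top

namespace Pool.Agent.Results.MP_84e666_co.FallingWords

open Pool.Agent.Work.MP_84e666_co

theorem result (n : ℕ) :
    (∃ μ : n.Partition → n.Partition → ℤ, IsMobius μ) ∧
    ∀ μ : n.Partition → n.Partition → ℤ, IsMobius μ →
      ∀ l r : n.Partition, Refines l.parts r.parts →
        ((big l.parts).card < (big r.parts).card ∨
            ((big l.parts).card = (big r.parts).card ∧ 2 ∉ r.parts)) →
          μ l r = (-1) ^ (l.parts.card - r.parts.card) * fall l.parts r.parts :=
  ⟨exists_mobius n, fun _ hμ l r hlr => mu_top hμ l r hlr⟩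

end Pool.Agent.Results.MP_84e666_co.FallingWords
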