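import Pool.Agent.Work.MP_84e666_co.M.Iff

namespace Pool.Agent.Results.MP_84e666_co.GapNPComplete

open Pool.Agent.Work.MP_84e666_co

/-- The integer functions of bit strings that reduce to the Möbius function of the refinement
order are exactly the differences of sharp-NP functions, up to a positive polynomial-time factor,
whether the two partitions are written in unary or in binary. -/
theorem result (h : List Bool → ℤ) : List.TFAE [
    ∃ (c f g : List Bool → ℕ), N68a2faeb.IsPolyTime c ∧ IsSharpNP f ∧ IsSharpNP g ∧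
      ∀ x, 0 < c x ∧ c x * h x = (f x : ℤ) - g x,
    ∃ (lam rho : List Bool → List ℕ) (c : List Bool → ℕ),
      N68a2faeb.IsPolyTime (fun x => (unary (lam x), unary (rho x))) ∧ N68a2faeb.IsPolyTime c ∧
      ∀ x, 0 < c x ∧ ∃ (n : ℕ) (l r : n.Partition), l.parts = lam x ∧ r.parts = rho x ∧
        Refines l.parts r.parts ∧ ∀ μ : n.Partition → n.Partition → ℤ, IsMobius μ →
          μ l r = c x * h x,
    ∃ (lam rho : List Bool → List ℕ) (c : List Bool → ℕ),
      N68a2faeb.IsPolyTime (fun x => (lam x, rho x)) ∧ N68a2faeb.IsPolyTime c ∧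
      ∀ x, 0 < c x ∧ ∃ (n : ℕ) (l r : n.Partition), l.parts = lam x ∧ r.parts = rho x ∧
        Refines l.parts r.parts ∧ ∀ μ : n.Partition → n.Partition → ℤ, IsMobius μ →
          μ l r = c x * h x] :=
  Mem.tfae h

end Pool.Agent.Results.MP_84e666_co.GapNPComplete
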