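import Pool.Agent.Work.MP_84e666_co.H45Marked

namespace Pool.Agent.Results.MP_84e666_co.MarkedParts

open Pool.Agent.Work.MP_84e666_co

open Classical in
/-- Removal of marked parts. The partition `l` consists of the parts `l₀` and marked parts `u j`,
which are told apart from each other and from the unmarked parts by subset sums of `l₀`; the
partition `r` consists of `r₀` and the parts `u j + t j`. Then `μ l r` is an explicit signed
combination of values of the Möbius function with upper end `r₀`; when `r₀` is empty the sum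
has the single term `(-1) ^ card l₀ * words l₀ t`. -/
theorem result {ι : Type} [Fintype ι] (n n₀ : ℕ) (μ : n.Partition → n.Partition → ℤ)
    (μ₀ : n₀.Partition → n₀.Partition → ℤ) (hμ : IsMobius μ) (hμ₀ : IsMobius μ₀)
    (l r : n.Partition) (r₀ : n₀.Partition) (l₀ : Multiset ℕ) (u t : ι → ℕ)
    (hl : l.parts = l₀ + Finset.univ.val.map u)
    (hr : r.parts = r₀.parts + Finset.univ.val.map fun j => u j + t j)
    (H1 : ∀ i, ∀ A ≤ l₀, ∀ B ≤ l₀, u i + A.sum ≠ B.sum)
    (H2 : ∀ i j, ∀ A ≤ l₀, ∀ B ≤ l₀, u i + A.sum = u j + B.sum → i = j)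
    (hlr : Refines l₀ (r₀.parts + Finset.univ.val.map t)) :
    μ l r = ∑ y ∈ Finset.univ.filter
        (fun y : n₀.Partition => y.parts ≤ l₀ ∧ Refines y.parts r₀.parts),
      (-1) ^ (l₀.card - y.parts.card) * words (l₀ - y.parts) t * μ₀ y r₀ := by
  refine marked_aux μ₀ r₀ hμ₀ hμ r _ l l₀ u t rfl hl hr ?_ ?_ hlr
  · rintro i _ _ ⟨A, hA, rfl⟩ ⟨B, hB, rfl⟩
    exact H1 i A hA B hB
  · rintro i j _ _ ⟨A, hA, rfl⟩ ⟨B, hB, rfl⟩
    exact H2 i j A hA B hB

end Pool.Agent.Results.MP_84e666_co.MarkedParts
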