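import Pool.Agent.Work.MP_84e666_co.V.Main

namespace Pool.Agent.Results.MP_84e666_co.NoClosedFormula

open Pool.Agent.Work.MP_84e666_co

/-- No closed-form expression has the same zeros as the Möbius function of the refinement order,
even when its sums and products run up to `exp^[k] ((log^[k] n) ^ c)`: every expression fails on
comparable pairs of partitions of arbitrarily large integers. -/
theorem result (k c : ℕ) (e : Form) (N : ℕ) : ∃ n ≥ N, ∃ (l r : n.Partition)
    (μ : n.Partition → n.Partition → ℤ), Refines l.parts r.parts ∧ IsMobius μ ∧
      ¬ (μ l r = 0 ↔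
        e.val ((fun x => 2 ^ x)^[k] ((Nat.log 2)^[k] n ^ c)) l.parts r.parts [] = 0) :=
  V.no_form k c e N

end Pool.Agent.Results.MP_84e666_co.NoClosedFormula
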